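import Pool.Agent.U581.LB.StmJ

/-!
# Project LJ, package TRG: approximation of a continuous function by sums of cosines
-/

set_option autoImplicit false

namespace Pool.Agent.U535.LB.TRG

open Real MeasureTheory Filter Topology Pool.Agent.U581.LB
open scoped Pointwise

/-- the cosines on the interval -/
noncomputable def cs (B : ℝ) (p : ℝ × ℝ) : C(Set.Icc (-B) B, ℝ) :=
  ⟨fun h => cos (p.1 * (h : ℝ) + p.2), by fun_prop⟩

lemma cs_mul (B : ℝ) (p q : ℝ × ℝ) :
    cs B p * cs B q = (1 / 2 : ℝ) • cs B (p.1 - q.1, p.2 - q.2) +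
      (1 / 2 : ℝ) • cs B (p.1 + q.1, p.2 + q.2) := by
  ext h
  simp only [cs, ContinuousMap.mul_apply, ContinuousMap.add_apply, ContinuousMap.smul_apply,
    ContinuousMap.coe_mk, smul_eq_mul]
  have e1 : (p.1 - q.1) * (h : ℝ) + (p.2 - q.2) = (p.1 * (h : ℝ) + p.2) - (q.1 * h + q.2) := by ring
  have e2 : (p.1 + q.1) * (h : ℝ) + (p.2 + q.2) = (p.1 * (h : ℝ) + p.2) + (q.1 * h + q.2) := by ring
  rw [e1, e2]
  generalize p.1 * (h : ℝ) + p.2 = u
  generalize q.1 * (h : ℝ) + q.2 = v
  rw [Real.cos_sub, Real.cos_add]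
  ring

theorem t_TRG : S_TRG := by
  intro g hg B ε hB hε
  have hone : (1 : C(Set.Icc (-B) B, ℝ)) ∈ Submodule.span ℝ (Set.range (cs B)) := by
    have : (1 : C(Set.Icc (-B) B, ℝ)) = cs B (0, 0) := by
      ext h
      simp [cs]
    rw [this]
    exact Submodule.subset_span ⟨_, rfl⟩
  have hmul : ∀ x y : C(Set.Icc (-B) B, ℝ), x ∈ Submodule.span ℝ (Set.range (cs B)) →
      y ∈ Submodule.span ℝ (Set.range (cs B)) → x * y ∈ Submodule.span ℝ (Set.range (cs B)) := by
    intro x y hx hy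
    have h1 : x * y ∈ Submodule.span ℝ (Set.range (cs B)) * Submodule.span ℝ (Set.range (cs B)) :=
      Submodule.mul_mem_mul hx hy
    rw [Submodule.span_mul_span] at h1
    have h2 : Submodule.span ℝ (Set.range (cs B) * Set.range (cs B)) ≤
        Submodule.span ℝ (Set.range (cs B)) := by
      rw [Submodule.span_le]
      rintro _ ⟨_, ⟨p, rfl⟩, _, ⟨q, rfl⟩, rfl⟩
      show cs B p * cs B q ∈ Submodule.span ℝ (Set.range (cs B))
      rw [cs_mul]
      exact Submodule.add_mem _ (Submodule.smul_mem _ _ (Submodule.subset_span ⟨_, rfl⟩))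
        (Submodule.smul_mem _ _ (Submodule.subset_span ⟨_, rfl⟩))
    exact h2 h1
  let A : Subalgebra ℝ C(Set.Icc (-B) B, ℝ) :=
    (Submodule.span ℝ (Set.range (cs B))).toSubalgebra hone hmul
  have hsep : A.SeparatesPoints := by
    intro x y hxy
    refine ⟨cs B (π / (2 * B), -(π / 2)), ⟨_, ?_, rfl⟩, ?_⟩
    · exact Submodule.subset_span ⟨_, rfl⟩
    · intro h
      apply hxy
      have key : ∀ z : Set.Icc (-B) B, (cs B (π / (2 * B), -(π / 2))) z =
          sin (π / (2 * B) * (z : ℝ)) := by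
        intro z
        show cos (π / (2 * B) * (z : ℝ) + -(π / 2)) = _
        rw [← sub_eq_add_neg, Real.cos_sub_pi_div_two]
      have hin : ∀ z : Set.Icc (-B) B, π / (2 * B) * (z : ℝ) ∈ Set.Icc (-(π / 2)) (π / 2) := by
        intro z
        have hpi := Real.pi_pos
        have e : π / (2 * B) * B = π / 2 := by field_simp
        constructor
        · have := mul_le_mul_of_nonneg_left z.2.1 (show 0 ≤ π / (2 * B) by positivity)
          linarith [e, mul_neg (π / (2 * B)) B]
        · have := mul_le_mul_of_nonneg_left z.2.2 (show 0 ≤ π / (2 * B) by positivity)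
          linarith
      have h2 : sin (π / (2 * B) * (x : ℝ)) = sin (π / (2 * B) * (y : ℝ)) := by
        rw [← key x, ← key y]; exact h
      have h3 := Real.injOn_sin (hin x) (hin y) h2
      have hpos : (0 : ℝ) < π / (2 * B) := by positivity
      exact Subtype.ext (mul_left_cancel₀ hpos.ne' h3)
  obtain ⟨f, hf⟩ := ContinuousMap.exists_mem_subalgebra_near_continuous_of_separatesPoints A hsep
    (fun x : Set.Icc (-B) B => g x) (by fun_prop) ε hε
  have hfm : (f : C(Set.Icc (-B) B, ℝ)) ∈ Submodule.span ℝ (Set.range (cs B)) := f.2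
  obtain ⟨l, hl⟩ := Finsupp.mem_span_range_iff_exists_finsupp.1 hfm
  refine ⟨l.support.card, fun k => l (l.support.equivFin.symm k), fun k =>
    (l.support.equivFin.symm k : ℝ × ℝ).1, fun k => (l.support.equivFin.symm k : ℝ × ℝ).2, ?_⟩
  intro h hh
  have hh' : h ∈ Set.Icc (-B) B := abs_le.1 hh
  have h1 := hf ⟨h, hh'⟩
  have h2 : (f : C(Set.Icc (-B) B, ℝ)) ⟨h, hh'⟩ = ∑ k : Fin l.support.card,
      l (l.support.equivFin.symm k) * cos ((l.support.equivFin.symm k : ℝ × ℝ).1 * h +
        (l.support.equivFin.symm k : ℝ × ℝ).2) := by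
    rw [← hl, Finsupp.sum]
    rw [ContinuousMap.sum_apply]
    rw [Equiv.sum_comp l.support.equivFin.symm
      (fun p : l.support => l (p : ℝ × ℝ) * cos ((p : ℝ × ℝ).1 * h + (p : ℝ × ℝ).2))]
    rw [← Finset.sum_coe_sort]
    rfl
  rw [← h2, abs_sub_comm]
  exact h1.le

end Pool.Agent.U535.LB.TRG
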